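import Mathlib

/-!
# Definitions for MP_3c7f5c_ag (holomorphy conjecture for twisted topological zeta functions)
-/

open CategoryTheory

namespace Pool.Agent.HZ

/-! ## Singular homology with complex coefficients, Euler characteristic -/

/-- Singular homology `H_k(X; ℂ)` (Mathlib's singular homology with coefficients in `ℂ`). -/
noncomputable abbrev Hl (k : ℕ) (X : Type) [TopologicalSpace X] : ModuleCat.{0} ℂ :=
  ((AlgebraicTopology.singularHomologyFunctor (ModuleCat.{0} ℂ) k).obj
    (ModuleCat.of ℂ ℂ)).obj (TopCat.of X)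

/-- The map induced by a continuous map in singular homology. -/
noncomputable def Hmap (k : ℕ) {X Y : Type} [TopologicalSpace X] [TopologicalSpace Y]
    (φ : C(X, Y)) : Hl k X →ₗ[ℂ] Hl k Y :=
  (((AlgebraicTopology.singularHomologyFunctor (ModuleCat.{0} ℂ) k).obj
    (ModuleCat.of ℂ ℂ)).map (TopCat.ofHom φ)).hom

/-- The topological Euler characteristic `∑ (-1)^k dim H_k(X; ℂ)`. -/
noncomputable def eulerChar (X : Type) [TopologicalSpace X] : ℤ :=
  ∑ᶠ k : ℕ, (-1) ^ k * (Module.finrank ℂ (Hl k X) : ℤ)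

/-- Singular cohomology with complex coefficients, as the dual of singular homology. -/
abbrev Coh (k : ℕ) (X : Type) [TopologicalSpace X] : Type := Module.Dual ℂ (Hl k X)

/-- The map induced by a continuous map in singular cohomology. -/
noncomputable def Cmap (k : ℕ) {X Y : Type} [TopologicalSpace X] [TopologicalSpace Y]
    (φ : C(X, Y)) : Coh k Y →ₗ[ℂ] Coh k X :=
  Module.Dual.transpose (Hmap k φ)

/-! ## Local monodromy (stalks of nearby cycles) -/

variable {n : ℕ}

/-- `U ×_{ℂ^*} ℂ = {(z, τ) : z ∈ U, f(z) = exp τ}`: the pull-back to `U \ f⁻¹(0)` (via `f`)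
of the universal covering `exp : ℂ → ℂ^*`. -/
def Tube (f : MvPolynomial (Fin n) ℂ) (U : Set (Fin n → ℂ)) : Type :=
  {p : (Fin n → ℂ) × ℂ // p.1 ∈ U ∧ MvPolynomial.eval p.1 f = Complex.exp p.2}

instance (f : MvPolynomial (Fin n) ℂ) (U : Set (Fin n → ℂ)) : TopologicalSpace (Tube f U) :=
  inferInstanceAs (TopologicalSpace {p : (Fin n → ℂ) × ℂ //
    p.1 ∈ U ∧ MvPolynomial.eval p.1 f = Complex.exp p.2})

/-- The deck transformation `(z, τ) ↦ (z, τ + 2πi)`; it induces the monodromy. -/
noncomputable def deck (f : MvPolynomial (Fin n) ℂ) (U : Set (Fin n → ℂ)) :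
    C(Tube f U, Tube f U) where
  toFun p := ⟨(p.1.1, p.1.2 + 2 * Real.pi * Complex.I), p.2.1, by
    rw [p.2.2, Complex.exp_add, Complex.exp_two_pi_mul_I, mul_one]⟩
  continuous_toFun := by
    refine Continuous.subtype_mk ?_ _
    exact (continuous_fst.comp continuous_subtype_val).prodMk
      ((continuous_snd.comp continuous_subtype_val).add continuous_const)

/-- The inclusion of the smaller tube. -/
def tubeIncl (f : MvPolynomial (Fin n) ℂ) {V U : Set (Fin n → ℂ)} (h : V ⊆ U) :
    C(Tube f V, Tube f U) where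
  toFun p := ⟨p.1, h p.2.1, p.2.2⟩
  continuous_toFun := Continuous.subtype_mk continuous_subtype_val _

/-- `lam` is an eigenvalue of the monodromy `T_x` on `H^k(F_x; ℂ)`, where `F_x` is the Milnor
fibre of `f` at `x`; here `H^k(F_x; ℂ)` is computed as the stalk at `x` of the nearby cycles
`R^k ψ_f ℂ`, i.e. as the direct limit of the groups `H^k(U ×_{ℂ^*} ℂ; ℂ)` over the open
neighbourhoods `U` of `x`, and `T_x` is induced by the deck transformation.
(An eigenvector is a class `c` on some `U`, such that `T c - lam c` vanishes in the direct limit,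
and `c` does not vanish in the direct limit.) -/
def IsMonodromyEigenvalueAt (f : MvPolynomial (Fin n) ℂ) (x : Fin n → ℂ) (k : ℕ) (lam : ℂ) :
    Prop :=
  ∃ U : Set (Fin n → ℂ), IsOpen U ∧ x ∈ U ∧ ∃ c : Coh k (Tube f U),
    (∃ (V : Set (Fin n → ℂ)) (h : V ⊆ U), IsOpen V ∧ x ∈ V ∧
      Cmap k (tubeIncl f h) (Cmap k (deck f U) c - lam • c) = 0) ∧
    ∀ (V : Set (Fin n → ℂ)) (h : V ⊆ U), IsOpen V → x ∈ V → Cmap k (tubeIncl f h) c ≠ 0

/-! ## Log resolutions and the twisted topological zeta function -/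

/-- The Jacobian determinant of a polynomial self-map of `ℂ^n`. -/
noncomputable def jacDet (m : Fin n → MvPolynomial (Fin n) ℂ) : MvPolynomial (Fin n) ℂ :=
  Matrix.det (Matrix.of fun i j => MvPolynomial.pderiv j (m i))

/-- A log resolution `μ : Y → ℂ^n` of the pair `(ℂ^n, V(f))`, where `Y` is a smooth variety glued
from finitely many affine spaces `ℂ^n` (charts). -/
structure LogResolution (f : MvPolynomial (Fin n) ℂ) where
  /-- the complex points of `Y` -/
  Y : Type
  topY : TopologicalSpace Y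
  t2 : T2Space Y
  /-- the resolution morphism -/
  mu : Y → (Fin n → ℂ)
  proper : IsProperMap mu
  /-- the index set of the charts -/
  K : Type
  finK : Fintype K
  /-- the charts, open embeddings of affine space -/
  chart : K → (Fin n → ℂ) → Y
  chart_openEmbedding : ∀ k, Topology.IsOpenEmbedding (chart k)
  chart_cover : ∀ y, ∃ k z, chart k z = y
  /-- the changes of charts are regular: near every point they are given by rational functions
  with non-vanishing denominator -/
  transition : ∀ k l z, chart k z ∈ Set.range (chart l) →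
    ∃ (q : MvPolynomial (Fin n) ℂ) (p : Fin n → MvPolynomial (Fin n) ℂ),
      MvPolynomial.eval z q ≠ 0 ∧ ∀ z', MvPolynomial.eval z' q ≠ 0 →
        chart k z' = chart l (fun i => MvPolynomial.eval z' (p i) / MvPolynomial.eval z' q)
  /-- `mu` is polynomial in each chart -/
  muPoly : K → Fin n → MvPolynomial (Fin n) ℂ
  mu_chart : ∀ k z i, mu (chart k z) i = MvPolynomial.eval z (muPoly k i)
  /-- `mu` is birational: bijective over a non-empty Zariski open set -/
  birational : ∃ b : MvPolynomial (Fin n) ℂ, b ≠ 0 ∧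
    ∀ x, MvPolynomial.eval x b ≠ 0 → ∃! y, mu y = x
  /-- the index set of the prime divisors in the pull-back of `f` or the relative canonical
  divisor -/
  S : Type
  finS : Fintype S
  decS : DecidableEq S
  /-- the prime divisors `E_i` (closed, connected and, by `snc`, smooth; hence irreducible) -/
  E : S → Set Y
  E_closed : ∀ i, IsClosed (E i)
  E_connected : ∀ i, IsConnected (E i)
  /-- the multiplicity `N_i` of `E_i` in `div (f ∘ mu)` -/
  N : S → ℕ
  /-- `nu_i - 1` is the multiplicity of `E_i` in the relative canonical divisor -/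
  nu : S → ℕ
  one_le_nu : ∀ i, 1 ≤ nu i
  occurs : ∀ i, 0 < N i ∨ 1 < nu i
  /-- local equations of the `E_i` in the charts -/
  eqn : K → S → MvPolynomial (Fin n) ℂ
  E_chart : ∀ k i z, chart k z ∈ E i ↔ MvPolynomial.eval z (eqn k i) = 0
  /-- the `E_i` are smooth and have normal crossings: at each point the differentials of the
  local equations of the `E_i` through the point are linearly independent -/
  snc : ∀ k z, LinearIndependent ℂ
    (fun (i : {i : S // MvPolynomial.eval z (eqn k i) = 0}) (j : Fin n) =>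
      MvPolynomial.eval z (MvPolynomial.pderiv j (eqn k i.1)))
  /-- `div (f ∘ mu) = ∑ N_i E_i` -/
  div_f : ∀ k, ∃ c : ℂ, c ≠ 0 ∧
    MvPolynomial.bind₁ (muPoly k) f = MvPolynomial.C c * ∏ i, eqn k i ^ N i
  /-- `K_{Y/ℂ^n} = ∑ (nu_i - 1) E_i` -/
  div_K : ∀ k, ∃ c : ℂ, c ≠ 0 ∧
    jacDet (muPoly k) = MvPolynomial.C c * ∏ i, eqn k i ^ (nu i - 1)

attribute [instance] LogResolution.topY LogResolution.t2 LogResolution.finK
  LogResolution.finS LogResolution.decS

/-- `E_J° = ⋂_{i ∈ J} E_i \ ⋃_{j ∉ J} E_j`. -/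
def LogResolution.stratum {f : MvPolynomial (Fin n) ℂ} (R : LogResolution f) (J : Finset R.S) :
    Set R.Y :=
  {y | ∀ i, y ∈ R.E i ↔ i ∈ J}

open scoped Classical in
/-- The twisted topological zeta function
`∑_{∅ ≠ J ⊆ S, d ∣ m_J} χ(E_J°) ∏_{i ∈ J} (N_i s + nu_i)⁻¹`, `m_J = gcd (N_i : i ∈ J)`,
computed from the log resolution `R`. -/
noncomputable def LogResolution.Z {f : MvPolynomial (Fin n) ℂ} (R : LogResolution f) (d : ℕ) :
    RatFunc ℚ :=
  ∑ J ∈ (Finset.univ : Finset (Finset R.S)).filter (fun J => J.Nonempty ∧ d ∣ J.gcd R.N),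
    ((eulerChar (R.stratum J) : ℤ) : RatFunc ℚ) *
      ∏ i ∈ J, ((R.N i : RatFunc ℚ) * RatFunc.X + (R.nu i : RatFunc ℚ))⁻¹

end Pool.Agent.HZ
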