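import Pool.Agent.Lib.MP_3c7f5c_ag.ResData

/-!
# The divisors of the log resolution, and the model sets for the strata
-/

open Set

namespace Pool.Agent.HZ

/-- the equations of the divisors `O, A₁, A₂, D₁, D₂, D₃` and of the strict transforms of
`x = y²`, `u = v²`, `xu + w² = 0` in Cox coordinates -/
noncomputable def Pcox (s : Fin 9) : MvPolynomial (Fin 11) ℂ :=
  ![MvPolynomial.X 5, MvPolynomial.X 6, MvPolynomial.X 7, MvPolynomial.X 8, MvPolynomial.X 9,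
    MvPolynomial.X 10,
    MvPolynomial.X 0 * MvPolynomial.X 10 -
      MvPolynomial.X 1 ^ 2 * MvPolynomial.X 5 * MvPolynomial.X 6,
    MvPolynomial.X 3 * MvPolynomial.X 10 -
      MvPolynomial.X 4 ^ 2 * MvPolynomial.X 5 * MvPolynomial.X 7,
    MvPolynomial.X 0 * MvPolynomial.X 3 +
      MvPolynomial.X 2 ^ 2 * MvPolynomial.X 6 * MvPolynomial.X 7] s

/-- the multiplicities `N_i` -/
def ND : Fin 9 → ℕ := ![6, 3, 3, 6, 6, 2, 2, 2, 1]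

/-- the numbers `nu_i` -/
def nuD : Fin 9 → ℕ := ![5, 3, 3, 4, 4, 3, 1, 1, 1]

/-- the local equations in the charts -/
noncomputable def eqnD (k : Fin 25) (s : Fin 9) : MvPolynomial (Fin 5) ℂ :=
  MvPolynomial.aeval (HF.xiPoly k) (Pcox s)

/-- the divisors -/
def EDiv (s : Fin 9) : Set HF.Y :=
  {y | ∃ k z, HF.chart k z = y ∧ MvPolynomial.eval (HF.xi k z) (Pcox s) = 0}

/-- the stratum `E_J°` -/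
def Str (J : Finset (Fin 9)) : Set HF.Y := {y | ∀ s, y ∈ EDiv s ↔ s ∈ J}

/-! Model sets in `ℂ³` and `ℂ²` (as subsets of products) -/

/-- torus part -/
def MT : Set (ℂ × ℂ × ℂ) :=
  {p | p.1 ≠ 0 ∧ p.1 ≠ 1 ∧ p.2.1 ≠ 0 ∧ p.2.1 ≠ 1 ∧ p.2.2 ≠ 0 ∧ p.1 * p.2.1 + p.2.2 ^ 2 ≠ 0}

/-- chart `e_x, e_u, D₃` -/
def MS1 : Set (ℂ × ℂ × ℂ) :=
  {p | p.2.2 ≠ 0 ∧ p.1 * p.2.2 ≠ 1 ∧ p.2.1 * p.2.2 ≠ 1 ∧ p.1 * p.2.1 + 1 ≠ 0}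

/-- chart `e_x, e_v, A₂` -/
def MS2 : Set (ℂ × ℂ × ℂ) :=
  {p | p.2.2 ≠ 0 ∧ p.1 ≠ 1 ∧ p.2.1 ^ 2 * p.2.2 ≠ 1 ∧ p.1 + p.2.2 ≠ 0}

/-- chart `e_w, A₁, A₂` -/
def MS4 : Set (ℂ × ℂ × ℂ) :=
  {p | p.2.1 ≠ 0 ∧ p.2.2 ≠ 0 ∧ p.2.1 ≠ 1 ∧ p.2.2 ≠ 1 ∧ 1 + p.1 ^ 2 * p.2.1 * p.2.2 ≠ 0}

/-- model of the stratum `O, D₁, D₂` in the charts `e_x, e_v` and `e_x, e_y` -/
def MO : Set (ℂ × ℂ) := {p | p.1 ≠ 0 ∧ p.1 + 1 ≠ 0}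

end Pool.Agent.HZ
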