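import Pool.Agent.Lib.MP_3c7f5c_ag.HomDefs

/-!
# Auxiliary definitions for the topology of the tubes
-/

open Set

namespace Pool.Agent.HZ

/-- `T : X → X` has no eigenvalue `mu` on any `H_k(X; ℂ)` -/
def NoEig {X : Type} [TopologicalSpace X] (T : C(X, X)) (mu : ℂ) : Prop :=
  ∀ (k : ℕ) (a : Hl k X), Hmap k T a = mu • a → a = 0

/-- `T^m` acts as the identity on all `H_k(X; ℂ)` -/
def PowOne {X : Type} [TopologicalSpace X] (T : C(X, X)) (m : ℕ) : Prop :=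
  ∀ (k : ℕ) (a : Hl k X), (Hmap k T)^[m] a = a

/-- `(T² - 1)(T² + T + 1) = T⁴ + T³ - T - 1` kills all `H_k(X; ℂ)` -/
def Kill {X : Type} [TopologicalSpace X] (T : C(X, X)) : Prop :=
  ∀ (k : ℕ) (a : Hl k X), Hmap k T (Hmap k T (Hmap k T (Hmap k T a))) +
    Hmap k T (Hmap k T (Hmap k T a)) - Hmap k T a - a = 0

section
variable {Z : Type} [TopologicalSpace Z]

/-- `{(z, τ) : F z = exp τ}` -/
def Cov (F : C(Z, ℂ)) : Type := {p : Z × ℂ // F p.1 = Complex.exp p.2}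

instance (F : C(Z, ℂ)) : TopologicalSpace (Cov F) :=
  inferInstanceAs (TopologicalSpace {p : Z × ℂ // F p.1 = Complex.exp p.2})

/-- `(z, τ) ↦ (z, τ + 2πi)` -/
noncomputable def Cov.deck (F : C(Z, ℂ)) : C(Cov F, Cov F) where
  toFun p := ⟨(p.1.1, p.1.2 + 2 * Real.pi * Complex.I), by
    rw [p.2, Complex.exp_add, Complex.exp_two_pi_mul_I, mul_one]⟩
  continuous_toFun := by
    refine Continuous.subtype_mk ?_ _
    exact (continuous_fst.comp continuous_subtype_val).prodMk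
      ((continuous_snd.comp continuous_subtype_val).add continuous_const)

/-- `{(z, τ, q) : F z = (1 - q²) exp τ}` -/
def Susp (F : C(Z, ℂ)) : Type :=
  {p : Z × ℂ × ℂ // F p.1 = (1 - p.2.2 ^ 2) * Complex.exp p.2.1}

instance (F : C(Z, ℂ)) : TopologicalSpace (Susp F) :=
  inferInstanceAs (TopologicalSpace
    {p : Z × ℂ × ℂ // F p.1 = (1 - p.2.2 ^ 2) * Complex.exp p.2.1})

/-- `(z, τ, q) ↦ (z, τ + 2πi, -q)` -/
noncomputable def Susp.T (F : C(Z, ℂ)) : C(Susp F, Susp F) where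
  toFun p := ⟨(p.1.1, p.1.2.1 + 2 * Real.pi * Complex.I, - p.1.2.2), by
    rw [p.2, Complex.exp_add, Complex.exp_two_pi_mul_I, mul_one, neg_sq]⟩
  continuous_toFun := by
    refine Continuous.subtype_mk ?_ _
    have h1 : Continuous fun p : Susp F => p.1 := continuous_subtype_val
    exact (continuous_fst.comp h1).prodMk
      (((continuous_fst.comp (continuous_snd.comp h1)).add continuous_const).prodMk
        (continuous_snd.comp (continuous_snd.comp h1)).neg)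

/-- the part `Re q > -1/2` of the suspension -/
def Up (F : C(Z, ℂ)) : Set (Susp F) := {p | -1 / 2 < p.1.2.2.re}

/-- the part `Re q < 1/2` of the suspension -/
def Um (F : C(Z, ℂ)) : Set (Susp F) := {p | p.1.2.2.re < 1 / 2}
end

/-- the double covering `s² = g(p)` -/
def DCov {P : Type} [TopologicalSpace P] (g : C(P, ℂ)) : Type := {q : P × ℂ // q.2 ^ 2 = g q.1}

instance {P : Type} [TopologicalSpace P] (g : C(P, ℂ)) : TopologicalSpace (DCov g) :=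
  inferInstanceAs (TopologicalSpace {q : P × ℂ // q.2 ^ 2 = g q.1})

/-- the covering projection -/
def DCov.proj {P : Type} [TopologicalSpace P] (g : C(P, ℂ)) : C(DCov g, P) :=
  ⟨fun q => q.1.1, continuous_fst.comp continuous_subtype_val⟩

/-! ### The counterexample -/

/-- `f = (x - y²)² (u - v²)² (x u + w²)` in the variables `(x, y, w, u, v) = (X 0, …, X 4)` -/
noncomputable def f0 : MvPolynomial (Fin 5) ℂ :=
  (MvPolynomial.X 0 - MvPolynomial.X 1 ^ 2) ^ 2 * (MvPolynomial.X 3 - MvPolynomial.X 4 ^ 2) ^ 2 *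
    (MvPolynomial.X 0 * MvPolynomial.X 3 + MvPolynomial.X 2 ^ 2)

/-- `{z : (z 3, z 4) ∈ D}` -/
def Vinf (D : Set (ℂ × ℂ)) : Set (Fin 5 → ℂ) := {z | (z 3, z 4) ∈ D}

/-- `{z : |x| < r², |y| < r, |w| < r, (u, v) ∈ D}` -/
def Vr (r : ℝ) (D : Set (ℂ × ℂ)) : Set (Fin 5 → ℂ) :=
  {z | ‖z 0‖ < r ^ 2 ∧ ‖z 1‖ < r ∧ ‖z 2‖ < r ∧ (z 3, z 4) ∈ D}

/-- `{(x, y, u, v) : x ≠ y², u ≠ v², (u, v) ∈ D}` -/
def Z1 (D : Set (ℂ × ℂ)) : Type :=
  {z : ℂ × ℂ × ℂ × ℂ // z.1 - z.2.1 ^ 2 ≠ 0 ∧ z.2.2.1 - z.2.2.2 ^ 2 ≠ 0 ∧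
    (z.2.2.1, z.2.2.2) ∈ D}

instance (D : Set (ℂ × ℂ)) : TopologicalSpace (Z1 D) :=
  inferInstanceAs (TopologicalSpace {z : ℂ × ℂ × ℂ × ℂ // z.1 - z.2.1 ^ 2 ≠ 0 ∧
    z.2.2.1 - z.2.2.2 ^ 2 ≠ 0 ∧ (z.2.2.1, z.2.2.2) ∈ D})

/-- `F₁ = (x - y²)² (u - v²)² x u` on `Z1 D` -/
def F1 (D : Set (ℂ × ℂ)) : C(Z1 D, ℂ) where
  toFun z := (z.1.1 - z.1.2.1 ^ 2) ^ 2 * (z.1.2.2.1 - z.1.2.2.2 ^ 2) ^ 2 * (z.1.1 * z.1.2.2.1)
  continuous_toFun := by
    have h : Continuous fun z : Z1 D => z.1 := continuous_subtype_val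
    have hx : Continuous fun z : Z1 D => z.1.1 := continuous_fst.comp h
    have hy : Continuous fun z : Z1 D => z.1.2.1 := continuous_fst.comp (continuous_snd.comp h)
    have hu : Continuous fun z : Z1 D => z.1.2.2.1 :=
      continuous_fst.comp (continuous_snd.comp (continuous_snd.comp h))
    have hv : Continuous fun z : Z1 D => z.1.2.2.2 :=
      continuous_snd.comp (continuous_snd.comp (continuous_snd.comp h))
    exact (((hx.sub (hy.pow 2)).pow 2).mul ((hu.sub (hv.pow 2)).pow 2)).mul (hx.mul hu)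

/-- the function `u` on `Cov (F1 D)` -/
def uFun (D : Set (ℂ × ℂ)) : C(Cov (F1 D), ℂ) where
  toFun p := p.1.1.1.2.2.1
  continuous_toFun := by
    have h : Continuous fun p : Cov (F1 D) => p.1 := continuous_subtype_val
    have h2 : Continuous fun p : Cov (F1 D) => p.1.1.1 :=
      continuous_subtype_val.comp (continuous_fst.comp h)
    exact continuous_fst.comp (continuous_snd.comp (continuous_snd.comp h2))

/-- the lift of the deck transformation to the double covering `s² = u` of `Cov (F1 D)` -/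
noncomputable def T2 (D : Set (ℂ × ℂ)) : C(DCov (uFun D), DCov (uFun D)) where
  toFun q := ⟨(Cov.deck (F1 D) q.1.1, q.1.2), q.2⟩
  continuous_toFun := by
    refine Continuous.subtype_mk ?_ _
    have h : Continuous fun q : DCov (uFun D) => q.1 := continuous_subtype_val
    exact ((Cov.deck (F1 D)).continuous.comp (continuous_fst.comp h)).prodMk
      (continuous_snd.comp h)

/-- `{(X, v, s) : X ≠ 0, s ≠ 0, s² ≠ v², (s², v) ∈ D}` -/
def Z2 (D : Set (ℂ × ℂ)) : Type :=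
  {z : ℂ × ℂ × ℂ // z.1 ≠ 0 ∧ z.2.2 ≠ 0 ∧ z.2.2 ^ 2 - z.2.1 ^ 2 ≠ 0 ∧ (z.2.2 ^ 2, z.2.1) ∈ D}

instance (D : Set (ℂ × ℂ)) : TopologicalSpace (Z2 D) :=
  inferInstanceAs (TopologicalSpace {z : ℂ × ℂ × ℂ // z.1 ≠ 0 ∧ z.2.2 ≠ 0 ∧
    z.2.2 ^ 2 - z.2.1 ^ 2 ≠ 0 ∧ (z.2.2 ^ 2, z.2.1) ∈ D})

/-- `F₂ = X³ (s² - v²)² s²` on `Z2 D` -/
def F2 (D : Set (ℂ × ℂ)) : C(Z2 D, ℂ) where
  toFun z := z.1.1 ^ 3 * ((z.1.2.2 ^ 2 - z.1.2.1 ^ 2) ^ 2 * z.1.2.2 ^ 2)
  continuous_toFun := by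
    have h : Continuous fun z : Z2 D => z.1 := continuous_subtype_val
    have hx : Continuous fun z : Z2 D => z.1.1 := continuous_fst.comp h
    have hv : Continuous fun z : Z2 D => z.1.2.1 := continuous_fst.comp (continuous_snd.comp h)
    have hs : Continuous fun z : Z2 D => z.1.2.2 := continuous_snd.comp (continuous_snd.comp h)
    exact (hx.pow 3).mul ((((hs.pow 2).sub (hv.pow 2)).pow 2).mul (hs.pow 2))

/-- local statement: arbitrarily small neighbourhoods `V` of `x` with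
`(T² - 1)(T² + T + 1) = 0` on the homology of the tube -/
def LS {n : ℕ} (f : MvPolynomial (Fin n) ℂ) (x : Fin n → ℂ) : Prop :=
  ∀ U : Set (Fin n → ℂ), IsOpen U → x ∈ U →
    ∃ V : Set (Fin n → ℂ), IsOpen V ∧ x ∈ V ∧ V ⊆ U ∧ Kill (deck f V)

end Pool.Agent.HZ
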