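import Pool.Agent.Lib.MP_3c7f5c_ag.Defs

/-!
# Concrete singular chains (auxiliary definitions for the homology toolkit)
-/

open Set

namespace Pool.Agent.HZ

/-- the standard `n`-simplex -/
abbrev Dx (n : ℕ) : Type := stdSimplex ℝ (Fin (n + 1))

/-- singular simplices -/
abbrev Sing (n : ℕ) (X : Type) [TopologicalSpace X] : Type := C(Dx n, X)

/-- singular chains with complex coefficients -/
abbrev SC (n : ℕ) (X : Type) [TopologicalSpace X] : Type := Sing n X →₀ ℂ

/-- the `i`-th face of the standard simplex -/
noncomputable def face (n : ℕ) (i : Fin (n + 2)) : C(Dx n, Dx (n + 1)) :=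
  ⟨stdSimplex.map i.succAbove, stdSimplex.continuous_map _⟩

section
variable (n : ℕ) (X : Type) [TopologicalSpace X] {Y : Type} [TopologicalSpace Y]

/-- the boundary operator -/
noncomputable def bd : SC (n + 1) X →ₗ[ℂ] SC n X :=
  Finsupp.lsum ℂ fun σ => ∑ i : Fin (n + 2), (-1 : ℂ) ^ (i : ℕ) •
    Finsupp.lsingle (σ.comp (face n i))

variable {X} in
/-- push-forward of chains -/
noncomputable def SCmap (f : C(X, Y)) : SC n X →ₗ[ℂ] SC n Y :=
  Finsupp.lmapDomain ℂ ℂ fun σ => f.comp σ

/-- the boundary operator, including degree `0` (where it is `0`) -/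
noncomputable def bdd (X : Type) [TopologicalSpace X] : (n : ℕ) → (SC n X →ₗ[ℂ] SC (n - 1) X)
  | 0 => 0
  | (n + 1) => bd n X

/-- cycles -/
noncomputable def Zc : Submodule ℂ (SC n X) := LinearMap.ker (bdd X n)

theorem bd_single (σ : Sing (n + 1) X) (a : ℂ) :
    bd n X (Finsupp.single σ a) =
      ∑ i : Fin (n + 2), Finsupp.single (σ.comp (face n i)) ((-1 : ℂ) ^ (i : ℕ) * a) := by
  rw [bd, Finsupp.lsum_single, LinearMap.sum_apply]
  refine Finset.sum_congr rfl fun i _ => ?_
  rw [LinearMap.smul_apply, Finsupp.lsingle_apply, Finsupp.smul_single, smul_eq_mul]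

variable {X} in
theorem SCmap_single (f : C(X, Y)) (σ : Sing n X) (a : ℂ) :
    SCmap n f (Finsupp.single σ a) = Finsupp.single (f.comp σ) a := by
  rw [SCmap, Finsupp.lmapDomain_apply, Finsupp.mapDomain_single]

variable {X} in
theorem bd_SCmap (f : C(X, Y)) (c : SC (n + 1) X) :
    bd n Y (SCmap (n + 1) f c) = SCmap n f (bd n X c) := by
  induction c using Finsupp.induction_linear with
  | zero => simp
  | add c d hc hd => simp only [map_add, hc, hd]
  | single σ a =>
    rw [SCmap_single, bd_single, bd_single, map_sum]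
    refine Finset.sum_congr rfl fun i _ => ?_
    rw [SCmap_single, ContinuousMap.comp_assoc]

variable {X} in
theorem bdd_SCmap (f : C(X, Y)) (c : SC n X) :
    bdd Y n (SCmap n f c) = SCmap (n - 1) f (bdd X n c) := by
  cases n with
  | zero => simp [bdd]
  | succ n => exact bd_SCmap n f c

variable {X} in
/-- push-forward of cycles -/
noncomputable def Zmap (f : C(X, Y)) : Zc n X →ₗ[ℂ] Zc n Y :=
  (SCmap n f).restrict fun c hc => by
    change bdd X n c = 0 at hc
    change bdd Y n (SCmap n f c) = 0
    rw [bdd_SCmap, hc, map_zero]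
end

section
variable {n m : ℕ} {X : Type} [TopologicalSpace X]

/-- affine combination of points of a simplex -/
noncomputable def comb (v : Fin (n + 1) → Dx m) (t : Dx n) : Dx m :=
  ⟨fun j => ∑ i, t i * v i j, by
    constructor
    · intro j
      exact Finset.sum_nonneg fun i _ => mul_nonneg (t.2.1 i) ((v i).2.1 j)
    · rw [Finset.sum_comm]
      have : ∀ i, ∑ j, t i * v i j = t i := fun i => by
        rw [← Finset.mul_sum, stdSimplex.sum_eq_one, mul_one]
      simp only [this, stdSimplex.sum_eq_one]⟩

/-- the affine simplex with vertices `v` -/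
noncomputable def aff (v : Fin (n + 1) → Dx m) : C(Dx n, Dx m) where
  toFun := comb v
  continuous_toFun := by
    refine Continuous.subtype_mk ?_ _
    refine continuous_pi fun j => continuous_finsetSum _ fun i _ => ?_
    exact ((continuous_apply i).comp continuous_subtype_val).mul continuous_const

/-- the barycentre of the vertices -/
noncomputable def bary (v : Fin (n + 1) → Dx m) : Dx m := comb v stdSimplex.barycenter

/-- linear chains in the standard `m`-simplex -/
abbrev LC (n m : ℕ) : Type := (Fin (n + 1) → Dx m) →₀ ℂ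

/-- boundary of linear chains -/
noncomputable def bdL (n m : ℕ) : LC (n + 1) m →ₗ[ℂ] LC n m :=
  Finsupp.lsum ℂ fun v => ∑ i : Fin (n + 2), (-1 : ℂ) ^ (i : ℕ) •
    Finsupp.lsingle (v ∘ i.succAbove)

/-- the cone operator -/
noncomputable def coneL (b : Dx m) (n : ℕ) : LC n m →ₗ[ℂ] LC (n + 1) m :=
  Finsupp.lmapDomain ℂ ℂ fun v => Fin.cons b v

/-- push-forward of linear chains under an affine map between simplices -/
noncomputable def mapL {m' : ℕ} (w : Fin (m + 1) → Dx m') (n : ℕ) : LC n m →ₗ[ℂ] LC n m' :=
  Finsupp.lmapDomain ℂ ℂ fun v => comb w ∘ v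

/-- barycentric subdivision of linear chains -/
noncomputable def SdL (m : ℕ) : (n : ℕ) → (LC n m →ₗ[ℂ] LC n m)
  | 0 => LinearMap.id
  | (n + 1) => Finsupp.lsum ℂ fun v => LinearMap.toSpanSingleton ℂ _
      (coneL (bary v) n (SdL m n (bdL n m (Finsupp.single v 1))))

/-- chain homotopy between the identity and the subdivision of linear chains -/
noncomputable def ThL (m : ℕ) : (n : ℕ) → (LC n m →ₗ[ℂ] LC (n + 1) m)
  | 0 => 0
  | (n + 1) => Finsupp.lsum ℂ fun v => LinearMap.toSpanSingleton ℂ _
      (coneL (bary v) (n + 1) (Finsupp.single v 1 - ThL m n (bdL n m (Finsupp.single v 1))))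

/-- realization of linear chains as singular chains -/
noncomputable def realL (n m : ℕ) : LC n m →ₗ[ℂ] SC n (Dx m) :=
  Finsupp.lmapDomain ℂ ℂ fun v => aff v

/-- the vertices of the standard simplex -/
noncomputable def vert (n : ℕ) : Fin (n + 1) → Dx n := fun i => stdSimplex.vertex i

/-- barycentric subdivision of singular chains -/
noncomputable def SdX (n : ℕ) (X : Type) [TopologicalSpace X] : SC n X →ₗ[ℂ] SC n X :=
  Finsupp.lsum ℂ fun σ => LinearMap.toSpanSingleton ℂ _
    (SCmap n σ (realL n n (SdL n n (Finsupp.single (vert n) 1))))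

/-- chain homotopy between the identity and the subdivision of singular chains -/
noncomputable def ThX (n : ℕ) (X : Type) [TopologicalSpace X] : SC n X →ₗ[ℂ] SC (n + 1) X :=
  Finsupp.lsum ℂ fun σ => LinearMap.toSpanSingleton ℂ _
    (SCmap (n + 1) σ (realL (n + 1) n (ThL n n (Finsupp.single (vert n) 1))))

/-- chains which are small with respect to `{A, B}` -/
noncomputable def smallC (A B : Set X) (n : ℕ) : Submodule ℂ (SC n X) :=
  Finsupp.supported ℂ ℂ {σ : Sing n X | range σ ⊆ A ∨ range σ ⊆ B}
end

/-- the inclusion of a subspace -/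
def valC {X : Type} [TopologicalSpace X] (A : Set X) : C(A, X) := ⟨Subtype.val, continuous_subtype_val⟩

/-- the inclusion between two subspaces -/
def inclC {X : Type} [TopologicalSpace X] {A B : Set X} (h : A ⊆ B) : C(A, B) :=
  ⟨Set.inclusion h, continuous_inclusion h⟩

/-- the restriction of a continuous map to subspaces -/
def restrC {X Y : Type} [TopologicalSpace X] [TopologicalSpace Y] (f : C(X, Y)) {A : Set X}
    {B : Set Y} (h : MapsTo f A B) : C(A, B) :=
  ⟨h.restrict f A B, f.continuous.restrict h⟩

/-- finite total homology -/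
def FinHom (X : Type) [TopologicalSpace X] : Prop :=
  (∀ k, Module.Finite ℂ (Hl k X)) ∧ ∃ N, ∀ k ≥ N, Subsingleton (Hl k X)

/-- `X` has finite total homology and Euler characteristic `n` -/
def EC (X : Type) [TopologicalSpace X] (n : ℤ) : Prop := FinHom X ∧ eulerChar X = n

end Pool.Agent.HZ
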