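import Pool.Agent.Lib.MP_3c7f5c_ag.ResDefs

/-!
# The fan of the log resolution of `f0`
-/

namespace Pool.Agent.HZ

theorem dataBA : ∀ k j j', ∑ i, BD k j i * (rhoD (coneD k j') i : ℤ) = if j = j' then 1 else 0 := by
  decide +kernel

theorem dataAB : ∀ k i i', ∑ j, (rhoD (coneD k j) i : ℤ) * BD k j i' = if i = i' then 1 else 0 := by
  decide +kernel

theorem dataSep : ∀ k l j, ∑ i, hD k i * (rhoD (coneD k j) i : ℤ) ≤
    ∑ i, hD l i * (rhoD (coneD k j) i : ℤ) := by
  decide +kernel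

theorem dataSepLt : ∀ k l j, (∀ j', coneD l j' ≠ coneD k j) →
    ∑ i, hD k i * (rhoD (coneD k j) i : ℤ) < ∑ i, hD l i * (rhoD (coneD k j) i : ℤ) := by
  decide +kernel

theorem dataInj : ∀ k j j', coneD k j = coneD k j' → j = j' := by
  decide +kernel

theorem dataFacet : ∀ k j, (∀ i, 0 ≤ BD k j i) ∨ ∃ l, ∃ c : Fin 12, 0 < (c : ℕ) ∧
    ∀ i, hD l i - hD k i = ((c : ℕ) : ℤ) * BD k j i := by
  decide +kernel

/-- the fan of the log resolution -/
def HF : FanData 5 11 25 where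
  rho := rhoD
  cone := coneD
  B := BD
  h := hD
  Kpos := by norm_num
  inj := dataInj
  BA := dataBA
  AB := dataAB
  sep := dataSep
  sep_lt := dataSepLt
  facet := fun k j => (dataFacet k j).imp_right fun ⟨l, c, hc, h⟩ => ⟨l, c, hc, h⟩

end Pool.Agent.HZ
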