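import Pool.Agent.Lib.MP_3c7f5c_ag.MonDefs

/-!
# The toric log resolution: definitions
-/

open Set

namespace Pool.Agent.HZ

/-- A smooth projective fan with support the orthant `ℝ^n_{≥0}`: rays `rho`, maximal cones `cone k`
(lists of rays), dual bases `B k`, and linear functions `h k` (the pieces of a strictly convex
piecewise linear function). -/
structure FanData (n r K : ℕ) where
  rho : Fin r → Fin n → ℕ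
  cone : Fin K → Fin n → Fin r
  B : Fin K → Fin n → Fin n → ℤ
  h : Fin K → Fin n → ℤ
  Kpos : 0 < K
  inj : ∀ k j j', cone k j = cone k j' → j = j'
  BA : ∀ k j j', ∑ i, B k j i * (rho (cone k j') i : ℤ) = if j = j' then 1 else 0
  AB : ∀ k i i', ∑ j, (rho (cone k j) i : ℤ) * B k j i' = if i = i' then 1 else 0
  sep : ∀ k l j, ∑ i, h k i * (rho (cone k j) i : ℤ) ≤ ∑ i, h l i * (rho (cone k j) i : ℤ)
  sep_lt : ∀ k l j, (∀ j', cone l j' ≠ cone k j) →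
    ∑ i, h k i * (rho (cone k j) i : ℤ) < ∑ i, h l i * (rho (cone k j) i : ℤ)
  facet : ∀ k j, (∀ i, 0 ≤ B k j i) ∨ ∃ l, ∃ c : ℕ, 0 < c ∧ ∀ i, h l i - h k i = c * B k j i

namespace FanData

variable {n r K : ℕ} (F : FanData n r K)

/-- Cox coordinates of the point `z` of the chart `k` -/
noncomputable def xi (k : Fin K) (z : Fin n → ℂ) (ρ : Fin r) : ℂ :=
  if h : ∃ j, F.cone k j = ρ then z h.choose else 1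

/-- the point with Cox coordinates `ξ` lies in the chart `l` -/
def Adm (l : Fin K) (ξ : Fin r → ℂ) : Prop := ∀ ρ, (∀ j, F.cone l j ≠ ρ) → ξ ρ ≠ 0

open scoped Classical in
/-- coordinates in the chart `l` of the point with Cox coordinates `ξ` -/
noncomputable def coord (l : Fin K) (ξ : Fin r → ℂ) : Fin n → ℂ := fun m =>
  ξ (F.cone l m) * ∏ ρ ∈ Finset.univ.filter (fun ρ => ∀ j, F.cone l j ≠ ρ),
    ξ ρ ^ (∑ i, F.B l m i * (F.rho ρ i : ℤ))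

open scoped Classical in
/-- coordinates in the chart `l`, with value `∞` outside the chart -/
noncomputable def Psi (l : Fin K) (ξ : Fin r → ℂ) : OnePoint (Fin n → ℂ) :=
  if F.Adm l ξ then ((F.coord l ξ : Fin n → ℂ) : OnePoint (Fin n → ℂ)) else OnePoint.infty

/-- the chart `k`, as a map to a product of one point compactifications -/
noncomputable def chart0 (k : Fin K) (z : Fin n → ℂ) : Fin K → OnePoint (Fin n → ℂ) :=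
  fun l => F.Psi l (F.xi k z)

/-- the toric variety of the fan -/
def Y : Type := Set.range (fun p : Fin K × (Fin n → ℂ) => F.chart0 p.1 p.2)

instance : TopologicalSpace F.Y :=
  inferInstanceAs (TopologicalSpace (Set.range (fun p : Fin K × (Fin n → ℂ) => F.chart0 p.1 p.2)))

/-- the chart `k` -/
noncomputable def chart (k : Fin K) (z : Fin n → ℂ) : F.Y := ⟨F.chart0 k z, ⟨(k, z), rfl⟩⟩

/-- the morphism to `ℂ^n` in Cox coordinates -/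
noncomputable def muC (ξ : Fin r → ℂ) : Fin n → ℂ := fun i => ∏ ρ, ξ ρ ^ F.rho ρ i

/-- the morphism to `ℂ^n` -/
noncomputable def mu (y : F.Y) : Fin n → ℂ :=
  F.muC (F.xi (Classical.choose y.2).1 (Classical.choose y.2).2)

/-- Cox coordinates of the chart `k` as polynomials -/
noncomputable def xiPoly (k : Fin K) (ρ : Fin r) : MvPolynomial (Fin n) ℂ :=
  if h : ∃ j, F.cone k j = ρ then MvPolynomial.X h.choose else 1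

/-- the morphism to `ℂ^n` in the chart `k` as a polynomial map -/
noncomputable def muPoly (k : Fin K) (i : Fin n) : MvPolynomial (Fin n) ℂ :=
  ∏ ρ, F.xiPoly k ρ ^ F.rho ρ i

end FanData

/-- the rays `e_x, e_y, e_w, e_u, e_v, O, A₁, A₂, D₁, D₂, D₃` (coordinates `x, y, w, u, v`) -/
def rhoD : Fin 11 → Fin 5 → ℕ := ![![1, 0, 0, 0, 0], ![0, 1, 0, 0, 0], ![0, 0, 1, 0, 0], ![0, 0, 0, 1, 0], ![0, 0, 0, 0, 1], ![1, 1, 1, 1, 1], ![1, 1, 1, 0, 0], ![0, 0, 1, 1, 1], ![2, 1, 1, 0, 0], ![0, 0, 1, 2, 1], ![1, 0, 1, 1, 0]]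

/-- the 25 maximal cones -/
def coneD : Fin 25 → Fin 5 → Fin 11 := ![![0, 1, 3, 4, 9], ![0, 1, 3, 8, 9], ![0, 1, 4, 5, 8], ![0, 1, 4, 5, 9], ![0, 1, 5, 8, 9], ![0, 2, 4, 7, 8], ![0, 2, 7, 8, 9], ![0, 2, 8, 9, 10], ![0, 3, 8, 9, 10], ![0, 4, 5, 8, 9], ![0, 4, 7, 8, 9], ![1, 2, 3, 6, 9], ![1, 2, 4, 6, 7], ![1, 2, 6, 7, 9], ![1, 3, 6, 8, 9], ![1, 4, 5, 7, 8], ![1, 4, 5, 7, 9], ![1, 4, 6, 7, 8], ![1, 5, 7, 8, 9], ![1, 6, 7, 8, 9], ![2, 3, 6, 8, 9], ![2, 3, 8, 9, 10], ![2, 4, 6, 7, 8], ![2, 6, 7, 8, 9], ![4, 5, 7, 8, 9]]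

/-- the dual bases -/
def BD : Fin 25 → Fin 5 → Fin 5 → ℤ := ![![![1, 0, 0, 0, 0], ![0, 1, 0, 0, 0], ![0, 0, -2, 1, 0], ![0, 0, -1, 0, 1], ![0, 0, 1, 0, 0]],
  ![![1, 0, -2, 0, 2], ![0, 1, -1, 0, 1], ![0, 0, 0, 1, -2], ![0, 0, 1, 0, -1], ![0, 0, 0, 0, 1]],
  ![![1, 0, -2, 1, 0], ![0, 1, -1, 0, 0], ![0, 0, 0, -1, 1], ![0, 0, 0, 1, 0], ![0, 0, 1, -1, 0]],
  ![![1, 0, -2, 1, 0], ![0, 1, -2, 1, 0], ![0, 0, -1, 0, 1], ![0, 0, 2, -1, 0], ![0, 0, -1, 1, 0]],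
  ![![1, 0, -2, 1, 0], ![0, 1, -1, 1, -1], ![0, 0, 0, -1, 2], ![0, 0, 1, 0, -1], ![0, 0, 0, 1, -1]],
  ![![1, -2, 0, 0, 0], ![0, -1, 1, -1, 0], ![0, 0, 0, -1, 1], ![0, 0, 0, 1, 0], ![0, 1, 0, 0, 0]],
  ![![1, -2, 0, 0, 0], ![0, -1, 1, 0, -1], ![0, 0, 0, -1, 2], ![0, 1, 0, 0, 0], ![0, 0, 0, 1, -1]],
  ![![1, -2, 0, -1, 2], ![0, -1, 1, -1, 1], ![0, 1, 0, 0, 0], ![0, 0, 0, 0, 1], ![0, 0, 0, 1, -2]],
  ![![1, -1, -1, 0, 1], ![0, 1, -1, 1, -1], ![0, 1, 0, 0, 0], ![0, 0, 0, 0, 1], ![0, -1, 1, 0, -1]],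
  ![![1, 0, -2, 1, 0], ![0, -1, 1, -1, 1], ![0, 2, -2, 1, 0], ![0, -1, 2, -1, 0], ![0, -1, 1, 0, 0]],
  ![![1, -2, 0, 0, 0], ![0, 1, -1, 0, 1], ![0, -2, 2, -1, 0], ![0, 1, 0, 0, 0], ![0, 1, -1, 1, 0]],
  ![![-1, 1, 0, 0, 0], ![-1, 0, 1, 0, -1], ![0, 0, 0, 1, -2], ![1, 0, 0, 0, 0], ![0, 0, 0, 0, 1]],
  ![![-1, 1, 0, 0, 0], ![-1, 0, 1, -1, 0], ![0, 0, 0, -1, 1], ![1, 0, 0, 0, 0], ![0, 0, 0, 1, 0]],
  ![![-1, 1, 0, 0, 0], ![-1, 0, 1, 0, -1], ![1, 0, 0, 0, 0], ![0, 0, 0, -1, 2], ![0, 0, 0, 1, -1]],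
  ![![0, 1, -1, 0, 1], ![0, 0, 0, 1, -2], ![-1, 0, 2, 0, -2], ![1, 0, -1, 0, 1], ![0, 0, 0, 0, 1]],
  ![![-1, 1, 1, -1, 0], ![0, 0, 0, -1, 1], ![1, 0, -2, 2, 0], ![-1, 0, 2, -1, 0], ![0, 0, 1, -1, 0]],
  ![![-1, 1, 0, 0, 0], ![0, 0, -1, 0, 1], ![1, 0, 0, 0, 0], ![-1, 0, 2, -1, 0], ![0, 0, -1, 1, 0]],
  ![![0, 1, -1, 1, 0], ![0, 0, 0, -1, 1], ![-1, 0, 2, -2, 0], ![0, 0, 0, 1, 0], ![1, 0, -1, 1, 0]],
  ![![-1, 1, 1, 0, -1], ![1, 0, -2, 0, 2], ![-1, 0, 2, -1, 0], ![0, 0, 1, 0, -1], ![0, 0, 0, 1, -1]],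
  ![![0, 1, -1, 0, 1], ![-1, 0, 2, 0, -2], ![0, 0, 0, -1, 2], ![1, 0, -1, 0, 1], ![0, 0, 0, 1, -1]],
  ![![0, -1, 1, 0, -1], ![0, 0, 0, 1, -2], ![-1, 2, 0, 0, 0], ![1, -1, 0, 0, 0], ![0, 0, 0, 0, 1]],
  ![![-1, 1, 1, 0, -1], ![-1, 2, 0, 1, -2], ![0, 1, 0, 0, 0], ![0, 0, 0, 0, 1], ![1, -2, 0, 0, 0]],
  ![![0, -1, 1, -1, 0], ![0, 0, 0, -1, 1], ![-1, 2, 0, 0, 0], ![0, 0, 0, 1, 0], ![1, -1, 0, 0, 0]],
  ![![0, -1, 1, 0, -1], ![-1, 2, 0, 0, 0], ![0, 0, 0, -1, 2], ![1, -1, 0, 0, 0], ![0, 0, 0, 1, -1]],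
  ![![1, -1, -1, 0, 1], ![-1, 2, 0, 0, 0], ![-1, 0, 2, -1, 0], ![1, -1, 0, 0, 0], ![1, -1, -1, 1, 0]]]

/-- the linear functions -/
def hD : Fin 25 → Fin 5 → ℤ := ![![0, 0, 10, 0, 0], ![0, 0, 7, 0, 3], ![0, 0, 7, 2, 0], ![0, 0, 8, 1, 0], ![0, 0, 7, 1, 1], ![0, 7, 0, 7, 0], ![0, 7, 0, 3, 4], ![0, 7, 0, 1, 8], ![0, 6, 1, 0, 9], ![0, 1, 6, 2, 0], ![0, 3, 4, 3, 0], ![4, 0, 0, 0, 10], ![4, 0, 0, 7, 0], ![4, 0, 0, 3, 4], ![3, 0, 1, 0, 9], ![2, 0, 3, 4, 0], ![2, 0, 4, 3, 0], ![3, 0, 1, 6, 0], ![2, 0, 3, 3, 1], ![3, 0, 1, 3, 3], ![3, 1, 0, 0, 10], ![1, 5, 0, 0, 10], ![3, 1, 0, 7, 0], ![3, 1, 0, 3, 4], ![1, 1, 4, 3, 0]]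

end Pool.Agent.HZ
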